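import Pool.Agent.SOR.Stmts1

/-!
# Squad SOR, row TMU: `τ` is multiplicative
-/

open scoped BigOperators

noncomputable section

namespace Pool.Agent.SOR.H86

variable {Y : Type}

theorem cx_dl (i : Fr →* Equiv.Perm Y) (f : Y → ℚ) : Cx i (dl i f) := by
  intro g h y
  unfold dl
  rw [map_mul, Equiv.Perm.mul_apply]
  ring

theorem cx_sub {i : Fr →* Equiv.Perm Y} {u v : Fr → Y → ℚ} (hu : Cx i u) (hv : Cx i v) :
    Cx i (fun w y => u w y - v w y) := by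
  intro g h y
  change u (g * h) y - v (g * h) y = (u g (i h y) - v g (i h y)) + (u h y - v h y)
  rw [hu, hv]
  ring

theorem cx_eps {i : Fr →* Equiv.Perm Y} {x : Fr → Y → ℚ} {φ : MulAut Fr} {π : Equiv.Perm Y}
    (h1 : Cx i (tw φ π x)) (h2 : Cx i x) (g : Y → ℚ) : Cx i (eps i x φ π g) :=
  cx_sub (cx_sub h1 h2) (cx_dl i g)

/-- the inverse of the action -/
theorem act_inv {i : Fr →* Equiv.Perm Y} {φ : MulAut Fr} {π : Equiv.Perm Y}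
    (h : ∀ w y, π (i w y) = i (φ w) (π y)) (w : Fr) (y : Y) :
    π⁻¹ (i w y) = i (φ⁻¹ w) (π⁻¹ y) := by
  rw [Equiv.Perm.inv_eq_iff_eq, h]
  rw [← MulAut.mul_apply, mul_inv_cancel, MulAut.one_apply, ← Equiv.Perm.mul_apply π π⁻¹,
    mul_inv_cancel, Equiv.Perm.one_apply]

theorem fix_inv {φ : MulAut Fr} (h : φ lC = lC) : φ⁻¹ lC = lC := by
  have h1 : φ⁻¹ (φ lC) = lC := by
    rw [← MulAut.mul_apply, inv_mul_cancel, MulAut.one_apply]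
  rwa [h] at h1

theorem inv_fun {h : Y → ℚ} {π : Equiv.Perm Y} (hh : ∀ y, h (π y) = h y) (y : Y) :
    h (π⁻¹ y) = h y := by
  have h1 := hh (π⁻¹ y)
  rw [← Equiv.Perm.mul_apply, mul_inv_cancel, Equiv.Perm.one_apply] at h1
  exact h1.symm

theorem tw_mul (φ φ' : MulAut Fr) (π π' : Equiv.Perm Y) (u : Fr → Y → ℚ) :
    tw (φ * φ') (π * π') u = tw φ π (tw φ' π' u) := by
  funext w y
  unfold tw
  rw [mul_inv_rev, mul_inv_rev, MulAut.mul_apply, Equiv.Perm.mul_apply]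

/-- the coboundary of a product -/
theorem dl_prod {i : Fr →* Equiv.Perm Y} {φ : MulAut Fr} {π : Equiv.Perm Y}
    (h : ∀ w y, π (i w y) = i (φ w) (π y)) (g g' : Y → ℚ) (w : Fr) (y : Y) :
    dl i (fun y => g y + g' (π⁻¹ y)) w y = dl i g w y + dl i g' (φ⁻¹ w) (π⁻¹ y) := by
  change g (i w y) + g' (π⁻¹ (i w y)) - (g y + g' (π⁻¹ y)) =
    (g (i w y) - g y) + (g' (i (φ⁻¹ w) (π⁻¹ y)) - g' (π⁻¹ y))
  rw [act_inv h]
  ring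

theorem tw_dl {i : Fr →* Equiv.Perm Y} {φ : MulAut Fr} {π : Equiv.Perm Y}
    (h : ∀ w y, π (i w y) = i (φ w) (π y)) (g : Y → ℚ) :
    tw φ π (dl i g) = dl i (fun y => g (π⁻¹ y)) := by
  funext w y
  change g (i (φ⁻¹ w) (π⁻¹ y)) - g (π⁻¹ y) = g (π⁻¹ (i w y)) - g (π⁻¹ y)
  rw [act_inv h]

/-- the translated congruence -/
theorem tr_prod {R : Subring ℚ} {i : Fr →* Equiv.Perm Y} {x : Fr → Y → ℚ} {φ φ' : MulAut Fr}
    {π π' : Equiv.Perm Y} {g g' : Y → ℚ} (h : ∀ w y, π (i w y) = i (φ w) (π y))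
    (h1 : ∀ w y, tw φ π x w y - x w y - dl i g w y ∈ R)
    (h2 : ∀ w y, tw φ' π' x w y - x w y - dl i g' w y ∈ R) (w : Fr) (y : Y) :
    tw (φ * φ') (π * π') x w y - x w y - dl i (fun y => g y + g' (π⁻¹ y)) w y ∈ R := by
  rw [tw_mul, dl_prod h]
  have h3 := R.add_mem (h2 (φ⁻¹ w) (π⁻¹ y)) (h1 w y)
  have h4 : tw φ π (tw φ' π' x) w y - x w y - (dl i g w y + dl i g' (φ⁻¹ w) (π⁻¹ y)) =
      (tw φ' π' x (φ⁻¹ w) (π⁻¹ y) - x (φ⁻¹ w) (π⁻¹ y) - dl i g' (φ⁻¹ w) (π⁻¹ y)) +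
        (tw φ π x w y - x w y - dl i g w y) := by
    change tw φ' π' x (φ⁻¹ w) (π⁻¹ y) - x w y - (dl i g w y + dl i g' (φ⁻¹ w) (π⁻¹ y)) = _
    have h5 : tw φ π x w y = x (φ⁻¹ w) (π⁻¹ y) := rfl
    rw [h5]
    ring
  rw [h4]
  exact h3

/-- the product of the data -/
theorem ad_mul {R : Subring ℚ} {i : Fr →* Equiv.Perm Y} {x₁ x₂ : Fr → Y → ℚ} {h₁ h₂ : Y → ℚ}
    {φ : MulAut Fr} {π : Equiv.Perm Y} {g₁ g₂ : Y → ℚ} {φ' : MulAut Fr} {π' : Equiv.Perm Y}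
    {g₁' g₂' : Y → ℚ} (h : Ad R i x₁ x₂ h₁ h₂ φ π g₁ g₂) (h' : Ad R i x₁ x₂ h₁ h₂ φ' π' g₁' g₂') :
    Ad R i x₁ x₂ h₁ h₂ (φ * φ') (π * π') (fun y => g₁ y + g₁' (π⁻¹ y))
      (fun y => g₂ y + g₂' (π⁻¹ y)) where
  act := by
    intro w y
    rw [Equiv.Perm.mul_apply, Equiv.Perm.mul_apply, MulAut.mul_apply, h'.act, h.act]
  fixC := by rw [MulAut.mul_apply, h'.fixC, h.fixC]
  inv₁ := by
    intro y
    rw [Equiv.Perm.mul_apply, h.inv₁, h'.inv₁]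
  inv₂ := by
    intro y
    rw [Equiv.Perm.mul_apply, h.inv₂, h'.inv₂]
  tr₁ := tr_prod h.act h.tr₁ h'.tr₁
  tr₂ := tr_prod h.act h.tr₂ h'.tr₂
  c₁ := by
    intro y
    have h3 := R.add_mem (h.c₁ y) (h'.c₁ (π⁻¹ y))
    have h4 : g₁ (i lC y) + g₁' (π⁻¹ (i lC y)) - (g₁ y + g₁' (π⁻¹ y)) =
        (g₁ (i lC y) - g₁ y) + (g₁' (i lC (π⁻¹ y)) - g₁' (π⁻¹ y)) := by
      rw [act_inv h.act, fix_inv h.fixC]
      ring
    change g₁ (i lC y) + g₁' (π⁻¹ (i lC y)) - (g₁ y + g₁' (π⁻¹ y)) ∈ R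
    rw [h4]
    exact h3
  c₂ := by
    intro y
    rw [act_inv h.act, fix_inv h.fixC, h.c₂, h'.c₂]

theorem sum_inv [Fintype Y] (π : Equiv.Perm Y) (f : Y → ℚ) : ∑ y, f (π⁻¹ y) = ∑ y, f y :=
  Equiv.sum_comp π⁻¹ f

/-- row TMU -/
theorem tmu (hIVF : IvfStmt) : TmuStmt := by
  intro Y _ R i x₁ x₂ h₁ h₂ hB φ π g₁ g₂ φ' π' g₁' g₂' h h'
  refine ⟨ad_mul h h', ?_⟩
  obtain ⟨-, Iadd, Iadd', Idl, -, Itw, IR⟩ := hIVF Y i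
  have hx₁ := hB.ex₁
  have hx₂ := hB.ex₂
  -- the cocycles
  have hx₁π' : Cx i (tw φ' π' x₁) := (Itw φ' π' h'.act h'.fixC x₁ x₁ hx₁ hx₁).1
  have hx₂π' : Cx i (tw φ' π' x₂) := (Itw φ' π' h'.act h'.fixC x₂ x₂ hx₂ hx₂).1
  have hx₁π : Cx i (tw φ π x₁) := (Itw φ π h.act h.fixC x₁ x₁ hx₁ hx₁).1
  have hx₂π : Cx i (tw φ π x₂) := (Itw φ π h.act h.fixC x₂ x₂ hx₂ hx₂).1
  have he : Cx i (eps i x₂ φ π g₂) := cx_eps hx₂π hx₂ g₂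
  have he' : Cx i (eps i x₂ φ' π' g₂') := cx_eps hx₂π' hx₂ g₂'
  have hU : Cx i (tw φ π (tw φ' π' x₁)) := (Itw φ π h.act h.fixC _ _ hx₁π' hx₁π').1
  have hee' : Cx i (tw φ π (eps i x₂ φ' π' g₂')) := (Itw φ π h.act h.fixC _ _ he' he').1
  -- the cocycle `ε` of the product
  have heps : eps i x₂ (φ * φ') (π * π') (fun y => g₂ y + g₂' (π⁻¹ y)) =
      fun w y => eps i x₂ φ π g₂ w y + tw φ π (eps i x₂ φ' π' g₂') w y := by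
    funext w y
    change tw (φ * φ') (π * π') x₂ w y - x₂ w y - dl i (fun y => g₂ y + g₂' (π⁻¹ y)) w y =
      (tw φ π x₂ w y - x₂ w y - dl i g₂ w y) +
        (tw φ' π' x₂ (φ⁻¹ w) (π⁻¹ y) - x₂ (φ⁻¹ w) (π⁻¹ y) - dl i g₂' (φ⁻¹ w) (π⁻¹ y))
    rw [tw_mul, dl_prod h.act]
    change tw φ' π' x₂ (φ⁻¹ w) (π⁻¹ y) - x₂ w y - (dl i g₂ w y + dl i g₂' (φ⁻¹ w) (π⁻¹ y)) =
      (x₂ (φ⁻¹ w) (π⁻¹ y) - x₂ w y - dl i g₂ w y) +
        (tw φ' π' x₂ (φ⁻¹ w) (π⁻¹ y) - x₂ (φ⁻¹ w) (π⁻¹ y) - dl i g₂' (φ⁻¹ w) (π⁻¹ y))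
    ring
  -- the rest `r`
  obtain ⟨r, hr⟩ : ∃ r : Fr → Y → ℚ, r = fun w y => tw φ' π' x₁ w y - x₁ w y - dl i g₁' w y :=
    ⟨_, rfl⟩
  have hrC : Cx i r := by
    rw [hr]
    exact cx_sub (cx_sub hx₁π' hx₁) (cx_dl i g₁')
  have hrR : ∀ w y, r w y ∈ R := by
    intro w y
    rw [hr]
    exact h'.tr₁ w y
  have hrπ : Cx i (tw φ π r) := (Itw φ π h.act h.fixC _ _ hrC hrC).1
  obtain ⟨f, hf⟩ : ∃ f : Y → ℚ, f = fun y => g₁' (π⁻¹ y) := ⟨_, rfl⟩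
  have hUdec : tw φ π (tw φ' π' x₁) =
      fun w y => tw φ π x₁ w y + (dl i f w y + tw φ π r w y) := by
    funext w y
    rw [hf, ← tw_dl h.act, hr]
    unfold tw
    ring
  have hdr : Cx i (fun w y => dl i f w y + tw φ π r w y) := by
    intro a b y
    change dl i f (a * b) y + tw φ π r (a * b) y =
      (dl i f a (i b y) + tw φ π r a (i b y)) + (dl i f b y + tw φ π r b y)
    rw [cx_dl i f a b y, hrπ a b y]
    ring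
  -- the pairing
  have hI : Iv i (tw (φ * φ') (π * π') x₁)
      (eps i x₂ (φ * φ') (π * π') (fun y => g₂ y + g₂' (π⁻¹ y))) =
      (Iv i (tw φ π x₁) (eps i x₂ φ π g₂) + (∑ y, f (i lC y) * eps i x₂ φ π g₂ lC y +
        Iv i (tw φ π r) (eps i x₂ φ π g₂))) + Iv i (tw φ' π' x₁) (eps i x₂ φ' π' g₂') := by
    rw [heps, tw_mul, Iadd' _ _ _ hU he hee', (Itw φ π h.act h.fixC _ _ hx₁π' he').2]
    congr 1
    rw [hUdec, Iadd _ _ _ hx₁π hdr he, Iadd _ _ _ (cx_dl i f) hrπ he, Idl f _ he]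
  -- `ε(C, y)`
  obtain ⟨j, hj⟩ : ∃ j : Y → ℚ, j = fun y => h₂ y - x₂ lC y := ⟨_, rfl⟩
  have heC : ∀ y, eps i x₂ φ π g₂ lC y = j y - j (π⁻¹ y) := by
    intro y
    change x₂ (φ⁻¹ lC) (π⁻¹ y) - x₂ lC y - (g₂ (i lC y) - g₂ y) = j y - j (π⁻¹ y)
    rw [fix_inv h.fixC, h.c₂, hj]
    change _ = (h₂ y - x₂ lC y) - (h₂ (π⁻¹ y) - x₂ lC (π⁻¹ y))
    rw [inv_fun h.inv₂]
    ring
  have heR : ∀ w y, eps i x₂ φ π g₂ w y ∈ R := h.tr₂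
  have h1 : ∑ y, f (i lC y) * eps i x₂ φ π g₂ lC y - ∑ y, f y * eps i x₂ φ π g₂ lC y ∈ R := by
    rw [← Finset.sum_sub_distrib]
    refine sum_mem fun y _ => ?_
    rw [← sub_mul]
    refine R.mul_mem ?_ (heR _ _)
    rw [hf]
    change g₁' (π⁻¹ (i lC y)) - g₁' (π⁻¹ y) ∈ R
    rw [act_inv h.act, fix_inv h.fixC]
    exact h'.c₁ _
  have h2 : ∑ y, f y * eps i x₂ φ π g₂ lC y = ∑ y, f y * j y - ∑ y, g₁' y * j y := by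
    rw [← sum_inv π (fun y => g₁' y * j y), ← Finset.sum_sub_distrib]
    refine Finset.sum_congr rfl fun y _ => ?_
    rw [heC, hf]
    ring
  have h3 : Iv i (tw φ π r) (eps i x₂ φ π g₂) ∈ R :=
    IR R _ _ hrπ he (fun w y => hrR _ _) heR
  have h4 : ∑ y, h₁ y * (g₂ y + g₂' (π⁻¹ y)) = ∑ y, h₁ y * g₂ y + ∑ y, h₁ y * g₂' y := by
    rw [← sum_inv π (fun y => h₁ y * g₂' y), ← Finset.sum_add_distrib]
    refine Finset.sum_congr rfl fun y _ => ?_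
    rw [inv_fun h.inv₁]
    ring
  have h5 : ∑ y, (g₁ y + g₁' (π⁻¹ y)) * (h₂ y - x₂ lC y) =
      ∑ y, g₁ y * (h₂ y - x₂ lC y) + ∑ y, f y * j y := by
    rw [← Finset.sum_add_distrib]
    refine Finset.sum_congr rfl fun y _ => ?_
    rw [hf, hj]
    ring
  have h6 : ∑ y, g₁' y * (h₂ y - x₂ lC y) = ∑ y, g₁' y * j y := by
    rw [hj]
  have h7 := R.add_mem h1 h3
  have h8 : tau i x₁ x₂ h₁ h₂ (φ * φ') (π * π') (fun y => g₁ y + g₁' (π⁻¹ y))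
      (fun y => g₂ y + g₂' (π⁻¹ y)) - tau i x₁ x₂ h₁ h₂ φ π g₁ g₂ -
      tau i x₁ x₂ h₁ h₂ φ' π' g₁' g₂' =
      (∑ y, f (i lC y) * eps i x₂ φ π g₂ lC y - ∑ y, f y * eps i x₂ φ π g₂ lC y) +
        Iv i (tw φ π r) (eps i x₂ φ π g₂) := by
    unfold tau
    rw [hI, h2, h4, h5, h6]
    ring
  rw [h8]
  exact h7

end Pool.Agent.SOR.H86
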